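import Pool.Agent.H59.L.S8.Y252.PV.M4
import Pool.Agent.H59.L.S8.Y279.PV.Den

/-!
# Comparison of log-concave weights with a fixed proportion of common mass

`w' ≤ w`, `∫ w' ≥ v ∫ w`, `w` log-concave: the variances of linear functionals under `w` are at most a
constant `C(v)` times the variances under `w'`, and concentration passes from `w` to `w'`.
-/

set_option autoImplicit false

namespace Pool.Agent.Q184.NB

open MeasureTheory Set Filter Topology
open scoped ENNReal InnerProductSpace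
open Pool.Agent.W695.KH (Eu EU EV VV Sm Pot Uu)
open Pool.Agent.Y506.RG (EW VW Star LC1 GD Adm VW_shift EW_nonneg EW_mono EW_const EW_add EW_const_mul)
open Pool.Agent.Y506.PV
open Pool.Agent.Y252.PV.M4 (meas_in int_l int_l2 int_q cheb)
open Pool.Agent.Y279.PV (VW_eq VW_le)

variable {n : ℕ}

/-- tails of a log-concave weight with mass at least `p` in a slab of width `4 τ` -/
lemma tail (h : S_LEV) {w : Eu (Fin n) → ℝ} (hw : Adm w) (hlc : LCn w) (θ : Eu (Fin n))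
    (a τ p : ℝ) (hτ : 0 < τ) (hp : 0 < p) (hp1 : p ≤ 1)
    (hc : p * ∫ x, w x ≤ ∫ x in {x | |⟪x, θ⟫_ℝ - a| < 2 * τ}, w x) (k : ℕ) :
    ∫ x in {x | a + (2 * τ + 4 * τ * k) ≤ ⟪x, θ⟫_ℝ}, w x ≤ (1 - p) ^ k * ∫ x, w x := by
  have hW := hw.pos
  have hm := meas_in (n := n) θ
  have hq : 0 ≤ 1 - p := by linarith
  set W := ∫ x, w x with hWd
  set A := ∫ x in {x | a - 2 * τ ≤ ⟪x, θ⟫_ℝ}, w x with hA
  have hs1 : MeasurableSet {x : Eu (Fin n) | a - 2 * τ ≤ ⟪x, θ⟫_ℝ} :=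
    measurableSet_le measurable_const hm
  have hs2 : MeasurableSet {x : Eu (Fin n) | a + 2 * τ ≤ ⟪x, θ⟫_ℝ} :=
    measurableSet_le measurable_const hm
  have hs3 : MeasurableSet {x : Eu (Fin n) | |⟪x, θ⟫_ℝ - a| < 2 * τ} :=
    measurableSet_lt (hm.sub_const a).abs measurable_const
  have hAW : A ≤ W := setIntegral_le_integral hw.one (Eventually.of_forall hw.nonneg)
  have hdisj : Disjoint {x : Eu (Fin n) | |⟪x, θ⟫_ℝ - a| < 2 * τ} {x | a + 2 * τ ≤ ⟪x, θ⟫_ℝ} := by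
    rw [Set.disjoint_left]
    intro x h1 h2
    have h3 : |⟪x, θ⟫_ℝ - a| < 2 * τ := h1
    have h4 : a + 2 * τ ≤ ⟪x, θ⟫_ℝ := h2
    have := (abs_lt.1 h3).2
    linarith
  have hup : ∫ x in {x | a + 2 * τ ≤ ⟪x, θ⟫_ℝ}, w x ≤ A - p * W := by
    have h1 := setIntegral_union hdisj hs2 hw.one.integrableOn hw.one.integrableOn
    have h2 : ∫ x in {x : Eu (Fin n) | |⟪x, θ⟫_ℝ - a| < 2 * τ} ∪ {x | a + 2 * τ ≤ ⟪x, θ⟫_ℝ}, w x ≤
        A := by
      refine setIntegral_mono_set hw.one.integrableOn (Eventually.of_forall hw.nonneg) ?_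
      refine LE.le.eventuallyLE ?_
      rintro x (hx | hx)
      · have h3 : |⟪x, θ⟫_ℝ - a| < 2 * τ := hx
        have := (abs_lt.1 h3).1
        show a - 2 * τ ≤ ⟪x, θ⟫_ℝ
        linarith
      · have h4 : a + 2 * τ ≤ ⟪x, θ⟫_ℝ := hx
        show a - 2 * τ ≤ ⟪x, θ⟫_ℝ
        linarith
    linarith
  have hup0 : 0 ≤ ∫ x in {x | a + 2 * τ ≤ ⟪x, θ⟫_ℝ}, w x :=
    integral_nonneg_of_ae (Eventually.of_forall fun x => hw.nonneg x)
  have hA0 : 0 < A := by
    have : 0 < p * W := mul_pos hp hW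
    linarith
  have hup2 : A - p * W ≤ (1 - p) * A := by nlinarith
  rcases Nat.eq_zero_or_pos k with hk | hk
  · subst hk
    rw [pow_zero, one_mul]
    exact setIntegral_le_integral hw.one (Eventually.of_forall hw.nonneg)
  set J := ∫ x in {x | a + (2 * τ + 4 * τ * k) ≤ ⟪x, θ⟫_ℝ}, w x with hJ
  have hJ0 : 0 ≤ J := integral_nonneg_of_ae (Eventually.of_forall fun x => hw.nonneg x)
  have hkr : (0 : ℝ) < k := by exact_mod_cast hk
  have hconc : ConcS w (fun x => ⟪x, θ⟫_ℝ) := by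
    intro x y t _ _ _ _
    show (1 - t) * ⟪x, θ⟫_ℝ + t * ⟪y, θ⟫_ℝ ≤ ⟪(1 - t) • x + t • y, θ⟫_ℝ
    rw [inner_add_left, real_inner_smul_left, real_inner_smul_left]
  set t : ℝ := 1 / ((k : ℝ) + 1) with ht
  have ht0 : 0 < t := by positivity
  have ht1 : t < 1 := by
    rw [ht, div_lt_one (by positivity)]
    linarith
  have hl := h n w (fun x => ⟪x, θ⟫_ℝ) hw hlc hm hconc (a - 2 * τ) (a + (2 * τ + 4 * τ * k)) t
    ht0 ht1
  have hmid : (1 - t) * (a - 2 * τ) + t * (a + (2 * τ + 4 * τ * k)) = a + 2 * τ := by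
    rw [ht]
    field_simp
    ring
  rw [hmid, ← hJ, ← hA] at hl
  have hl2 := hl.trans (hup.trans hup2)
  -- raise to the power k + 1
  have hpow : (A ^ (1 - t) * J ^ t) ^ (k + 1) = A ^ k * J := by
    rw [mul_pow, ← Real.rpow_natCast (A ^ (1 - t)), ← Real.rpow_natCast (J ^ t),
      ← Real.rpow_mul hA0.le, ← Real.rpow_mul hJ0]
    have e1 : (1 - t) * ((k + 1 : ℕ) : ℝ) = (k : ℝ) := by
      rw [ht]
      push_cast
      field_simp
      ring
    have e2 : t * ((k + 1 : ℕ) : ℝ) = 1 := by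
      rw [ht]
      push_cast
      field_simp
    rw [e1, e2, Real.rpow_one, Real.rpow_natCast]
  have h5 : A ^ k * J ≤ ((1 - p) * A) ^ (k + 1) := by
    rw [← hpow]
    exact pow_le_pow_left₀ (mul_nonneg (Real.rpow_nonneg hA0.le _) (Real.rpow_nonneg hJ0 _)) hl2 _
  have h6 : A ^ k * J ≤ A ^ k * ((1 - p) ^ (k + 1) * A) := by
    refine h5.trans (le_of_eq ?_)
    rw [mul_pow]
    ring
  have h7 := le_of_mul_le_mul_left h6 (pow_pos hA0 k)
  have h8 : (1 - p) ^ (k + 1) ≤ (1 - p) ^ k := pow_le_pow_of_le_one hq (by linarith) (by omega)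
  calc J ≤ (1 - p) ^ (k + 1) * A := h7
    _ ≤ (1 - p) ^ k * W := mul_le_mul h8 hAW hA0.le (by positivity)

/-- the numbers -/
noncomputable def cf (p : ℝ) (k : ℕ) : ℝ := 36 * ((k : ℝ) + 1) ^ 2 * (1 - p) ^ k

lemma cf_nonneg {p : ℝ} (hp1 : p ≤ 1) (k : ℕ) : 0 ≤ cf p k := by
  unfold cf
  have : 0 ≤ 1 - p := by linarith
  positivity

lemma cf_sum {p : ℝ} (hp : 0 < p) (hp1 : p ≤ 1) : Summable (cf p) := by
  have hq : ‖1 - p‖ < 1 := by
    rw [Real.norm_eq_abs, abs_lt]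
    constructor <;> linarith
  have h2 : Summable (fun k : ℕ => (k : ℝ) ^ 2 * (1 - p) ^ k) :=
    summable_pow_mul_geometric_of_norm_lt_one 2 hq
  have h1 : Summable (fun k : ℕ => (k : ℝ) ^ 1 * (1 - p) ^ k) :=
    summable_pow_mul_geometric_of_norm_lt_one 1 hq
  have h0 : Summable (fun k : ℕ => (k : ℝ) ^ 0 * (1 - p) ^ k) :=
    summable_pow_mul_geometric_of_norm_lt_one 0 hq
  refine (((h2.add (h1.mul_left 2)).add h0).mul_left 36).congr fun k => ?_
  unfold cf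
  ring

/-- a pointwise bound -/
lemma pt (τ u : ℝ) (hτ : 0 < τ) (hu : 2 * τ ≤ |u|) : ∃ k : ℕ,
    2 * τ + 4 * τ * k ≤ |u| ∧ u ^ 2 ≤ 36 * ((k : ℝ) + 1) ^ 2 * τ ^ 2 := by
  have h0 : 0 ≤ (|u| - 2 * τ) / (4 * τ) := div_nonneg (by linarith) (by linarith)
  refine ⟨⌊(|u| - 2 * τ) / (4 * τ)⌋₊, ?_, ?_⟩
  · have h1 := Nat.floor_le h0
    rw [le_div_iff₀ (by linarith)] at h1
    linarith
  · have h1 := Nat.lt_floor_add_one ((|u| - 2 * τ) / (4 * τ))
    rw [div_lt_iff₀ (by linarith)] at h1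
    set k : ℝ := (⌊(|u| - 2 * τ) / (4 * τ)⌋₊ : ℝ)
    have hk : 0 ≤ k := Nat.cast_nonneg _
    have h2 : |u| ≤ 6 * (k + 1) * τ := by nlinarith
    have h3 : |u| ^ 2 ≤ (6 * (k + 1) * τ) ^ 2 := pow_le_pow_left₀ (abs_nonneg _) h2 2
    rw [sq_abs] at h3
    calc u ^ 2 ≤ (6 * (k + 1) * τ) ^ 2 := h3
      _ = _ := by ring

/-- the second moment about `a` -/
lemma second (h : S_LEV) {w : Eu (Fin n) → ℝ} (hw : Adm w) (hlc : LCn w) (θ : Eu (Fin n))
    (a τ p : ℝ) (hτ : 0 < τ) (hp : 0 < p) (hp1 : p ≤ 1)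
    (hc : p * ∫ x, w x ≤ ∫ x in {x | |⟪x, θ⟫_ℝ - a| < 2 * τ}, w x) :
    EW w (fun x => (⟪x, θ⟫_ℝ - a) ^ 2) ≤ (4 + 2 * ∑' k, cf p k) * τ ^ 2 := by
  have hW := hw.pos
  have hm := meas_in (n := n) θ
  set W := ∫ x, w x with hWd
  have hq : 0 ≤ 1 - p := by linarith
  set A : ℕ → Set (Eu (Fin n)) := fun k => {x | a + (2 * τ + 4 * τ * k) ≤ ⟪x, θ⟫_ℝ} with hA
  set B : ℕ → Set (Eu (Fin n)) := fun k => {x | -a + (2 * τ + 4 * τ * k) ≤ ⟪x, -θ⟫_ℝ} with hB
  have hAm : ∀ k, MeasurableSet (A k) := fun k => measurableSet_le measurable_const hm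
  have hBm : ∀ k, MeasurableSet (B k) := fun k => measurableSet_le measurable_const (meas_in _)
  have tA : ∀ k, ∫ x in A k, w x ≤ (1 - p) ^ k * W := fun k => tail h hw hlc θ a τ p hτ hp hp1 hc k
  have hset' : {x : Eu (Fin n) | |⟪x, -θ⟫_ℝ - -a| < 2 * τ} = {x | |⟪x, θ⟫_ℝ - a| < 2 * τ} := by
    ext x
    simp only [mem_ofPred_eq]
    rw [inner_neg_right, ← abs_neg]
    ring_nf
  have tB : ∀ k, ∫ x in B k, w x ≤ (1 - p) ^ k * W := fun k =>
    tail h hw hlc (-θ) (-a) τ p hτ hp hp1 (by rw [hset']; exact hc) k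
  have wm : Measurable fun x => ENNReal.ofReal (w x) := hw.meas.ennreal_ofReal
  -- the pointwise bound
  have hpt : ∀ x, ENNReal.ofReal ((⟪x, θ⟫_ℝ - a) ^ 2 * w x) ≤
      ENNReal.ofReal (4 * τ ^ 2) * ENNReal.ofReal (w x) +
      ∑' k : ℕ, ENNReal.ofReal (36 * ((k : ℝ) + 1) ^ 2 * τ ^ 2) *
        ((A k).indicator (fun x => ENNReal.ofReal (w x)) x +
        (B k).indicator (fun x => ENNReal.ofReal (w x)) x) := by
    intro x
    rw [ENNReal.ofReal_mul (by positivity)]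
    rcases lt_or_ge |⟪x, θ⟫_ℝ - a| (2 * τ) with hx | hx
    · refine le_trans ?_ le_self_add
      gcongr
      have h1 : |⟪x, θ⟫_ℝ - a| ^ 2 ≤ (2 * τ) ^ 2 := pow_le_pow_left₀ (abs_nonneg _) hx.le 2
      rw [sq_abs] at h1
      calc (⟪x, θ⟫_ℝ - a) ^ 2 ≤ (2 * τ) ^ 2 := h1
        _ = _ := by ring
    · obtain ⟨k, hk1, hk2⟩ := pt τ _ hτ hx
      refine le_trans ?_ le_add_self
      refine le_trans ?_ (ENNReal.le_tsum k)
      refine mul_le_mul' (ENNReal.ofReal_le_ofReal hk2) ?_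
      rcases le_or_gt 0 (⟪x, θ⟫_ℝ - a) with hs | hs
      · rw [abs_of_nonneg hs] at hk1
        have hxA : x ∈ A k := by
          show a + (2 * τ + 4 * τ * k) ≤ ⟪x, θ⟫_ℝ
          linarith
        rw [indicator_of_mem hxA]
        exact le_self_add
      · rw [abs_of_neg hs] at hk1
        have hxB : x ∈ B k := by
          show -a + (2 * τ + 4 * τ * k) ≤ ⟪x, -θ⟫_ℝ
          rw [inner_neg_right]
          linarith
        rw [indicator_of_mem hxB]
        exact le_add_self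
  have key : ∫⁻ x, ENNReal.ofReal ((⟪x, θ⟫_ℝ - a) ^ 2 * w x) ≤
      ENNReal.ofReal ((4 + 2 * ∑' k, cf p k) * τ ^ 2 * W) := by
    refine (lintegral_mono hpt).trans ?_
    rw [lintegral_add_left (wm.const_mul _), lintegral_const_mul _ wm, lintegral_tsum]
    swap
    · intro k
      exact (((wm.indicator (hAm k)).add (wm.indicator (hBm k))).const_mul _).aemeasurable
    have hwint : ∫⁻ x, ENNReal.ofReal (w x) = ENNReal.ofReal W := by
      rw [hWd, ofReal_integral_eq_lintegral_ofReal hw.one (Eventually.of_forall hw.nonneg)]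
    have hset : ∀ S : Set (Eu (Fin n)), MeasurableSet S →
        ∫⁻ x, S.indicator (fun x => ENNReal.ofReal (w x)) x = ENNReal.ofReal (∫ x in S, w x) := by
      intro S hS
      rw [lintegral_indicator hS, ofReal_integral_eq_lintegral_ofReal hw.one.integrableOn
        (Eventually.of_forall hw.nonneg)]
    have hterm : ∀ k : ℕ, ∫⁻ x, ENNReal.ofReal (36 * ((k : ℝ) + 1) ^ 2 * τ ^ 2) *
          ((A k).indicator (fun x => ENNReal.ofReal (w x)) x +
          (B k).indicator (fun x => ENNReal.ofReal (w x)) x) ≤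
          ENNReal.ofReal (cf p k * (2 * τ ^ 2 * W)) := by
      intro k
      have hadd : Measurable fun x => (A k).indicator (fun x => ENNReal.ofReal (w x)) x +
          (B k).indicator (fun x => ENNReal.ofReal (w x)) x :=
        (wm.indicator (hAm k)).add (wm.indicator (hBm k))
      rw [lintegral_const_mul _ hadd,
        lintegral_add_left (wm.indicator (hAm k)), hset _ (hAm k), hset _ (hBm k)]
      calc ENNReal.ofReal (36 * ((k : ℝ) + 1) ^ 2 * τ ^ 2) *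
          (ENNReal.ofReal (∫ x in A k, w x) + ENNReal.ofReal (∫ x in B k, w x))
          ≤ ENNReal.ofReal (36 * ((k : ℝ) + 1) ^ 2 * τ ^ 2) *
            (ENNReal.ofReal ((1 - p) ^ k * W) + ENNReal.ofReal ((1 - p) ^ k * W)) := by
            gcongr
            · exact tA k
            · exact tB k
        _ = ENNReal.ofReal (cf p k * (2 * τ ^ 2 * W)) := by
            rw [← ENNReal.ofReal_add (by positivity) (by positivity),
              ← ENNReal.ofReal_mul (by positivity)]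
            congr 1
            unfold cf
            ring
    have hsum : ∑' k : ℕ, ENNReal.ofReal (cf p k * (2 * τ ^ 2 * W)) =
        ENNReal.ofReal ((∑' k, cf p k) * (2 * τ ^ 2 * W)) := by
      rw [← ENNReal.ofReal_tsum_of_nonneg (fun k => mul_nonneg (cf_nonneg hp1 k) (by positivity))
        ((cf_sum hp hp1).mul_right _), tsum_mul_right]
    rw [hwint]
    refine (add_le_add_right (ENNReal.tsum_le_tsum hterm) _).trans ?_
    rw [hsum, ← ENNReal.ofReal_mul (by positivity), ← ENNReal.ofReal_add (by positivity)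
      (mul_nonneg (tsum_nonneg (cf_nonneg hp1)) (by positivity))]
    refine ENNReal.ofReal_le_ofReal (le_of_eq ?_)
    ring
  have hnn : ∀ x, 0 ≤ (⟪x, θ⟫_ℝ - a) ^ 2 * w x := fun x =>
    mul_nonneg (sq_nonneg _) (hw.nonneg x)
  rw [← ofReal_integral_eq_lintegral_ofReal (int_q hw θ a) (Eventually.of_forall hnn)] at key
  have hcf0 : 0 ≤ ∑' k, cf p k := tsum_nonneg (cf_nonneg hp1)
  unfold EW
  rw [div_le_iff₀ hW]
  exact (ENNReal.ofReal_le_ofReal_iff (by positivity)).1 key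

/-- the constant -/
noncomputable def CC (v : ℝ) : ℝ := 4 + 2 * ∑' k, cf (3 / 4 * v) k

lemma CC_pos {v : ℝ} (hv1 : v ≤ 1) : 0 < CC v := by
  have : 0 ≤ ∑' k, cf (3 / 4 * v) k := tsum_nonneg (cf_nonneg (by linarith))
  unfold CC
  linarith

/-- **variances of linear functionals** -/
theorem var_cmp (h : S_LEV) {v : ℝ} (hv : 0 < v) (hv1 : v ≤ 1) {w w' : Eu (Fin n) → ℝ}
    (hw : Adm w) (hlc : LCn w) (hw' : Adm w') (hle : ∀ x, w' x ≤ w x)
    (hmass : v * ∫ x, w x ≤ ∫ x, w' x) (θ : Eu (Fin n)) :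
    VW w (fun x => ⟪x, θ⟫_ℝ) ≤ CC v * VW w' (fun x => ⟪x, θ⟫_ℝ) := by
  have hm := meas_in (n := n) θ
  set a := EW w' (fun x => ⟪x, θ⟫_ℝ) with ha
  set V := VW w' (fun x => ⟪x, θ⟫_ℝ) with hV
  have hVe : EW w' (fun x => (⟪x, θ⟫_ℝ - a) ^ 2) = V := by
    rw [hV, VW_eq hw' _ (int_l hw' θ) (int_l2 hw' θ)]
  have hV0 : 0 ≤ V := by
    rw [← hVe]
    exact EW_nonneg hw' _ fun x => sq_nonneg _
  have main : ∀ τ : ℝ, 0 < τ → V ≤ τ ^ 2 → VW w (fun x => ⟪x, θ⟫_ℝ) ≤ CC v * τ ^ 2 := by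
    intro τ hτ hVτ
    have hW' := hw'.pos
    have hs3 : MeasurableSet {x : Eu (Fin n) | |⟪x, θ⟫_ℝ - a| < 2 * τ} :=
      measurableSet_lt (hm.sub_const a).abs measurable_const
    have h1 : ∫ x, (⟪x, θ⟫_ℝ - a) ^ 2 * w' x ≤ τ ^ 2 * ∫ x, w' x := by
      have h2 : ∫ x, (⟪x, θ⟫_ℝ - a) ^ 2 * w' x = V * ∫ x, w' x := by
        rw [← hVe]
        unfold EW
        field_simp
      rw [h2]
      gcongr
    have h2 := cheb hw' θ a τ hτ h1 {x | |⟪x, θ⟫_ℝ - a| < 2 * τ}ᶜ hs3.compl (by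
      intro x hx
      have hx' : ¬ |⟪x, θ⟫_ℝ - a| < 2 * τ := hx
      rw [not_lt] at hx'
      rw [← sq_abs (⟪x, θ⟫_ℝ - a)]
      exact pow_le_pow_left₀ (by linarith) hx' 2)
    have h3 := integral_add_compl hs3 hw'.one
    have h4 : 3 / 4 * v * ∫ x, w x ≤ ∫ x in {x | |⟪x, θ⟫_ℝ - a| < 2 * τ}, w x := by
      have h5 : ∫ x in {x | |⟪x, θ⟫_ℝ - a| < 2 * τ}, w' x ≤
          ∫ x in {x | |⟪x, θ⟫_ℝ - a| < 2 * τ}, w x :=
        setIntegral_mono hw'.one.integrableOn hw.one.integrableOn hle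
      have h6 : 3 / 4 * v * ∫ x, w x ≤ 3 / 4 * ∫ x, w' x := by
        rw [mul_assoc]
        gcongr
      linarith
    have h5 := second h hw hlc θ a τ (3 / 4 * v) hτ (by positivity) (by linarith) h4
    exact (VW_le hw _ (int_l hw θ) (int_l2 hw θ) a).trans h5
  refine le_of_forall_pos_le_add fun ε hε => ?_
  have hC := CC_pos hv1
  have h1 := main (Real.sqrt (V + ε / CC v)) (Real.sqrt_pos.2 (by positivity)) (by
    rw [Real.sq_sqrt (by positivity)]
    have : 0 < ε / CC v := by positivity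
    linarith)
  rw [Real.sq_sqrt (by positivity)] at h1
  refine h1.trans (le_of_eq ?_)
  rw [mul_add, mul_div_cancel₀ _ hC.ne']

/-- **concentration passes to weights with a proportion of the mass** -/
theorem down (h : S_LEV) {v : ℝ} (hv : 0 < v) (hv1 : v ≤ 1) {κ δ : ℝ} {w w' : Eu (Fin n) → ℝ}
    (hw : Adm w) (hlc : LCn w) (hw' : Adm w') (hle : ∀ x, w' x ≤ w x)
    (hmass : v * ∫ x, w x ≤ ∫ x, w' x) (hcc : CcW κ (v * δ) w) :
    CcW (κ / Real.sqrt (CC v)) δ w' := by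
  intro k hk T s hs hT u hu hu1 hud
  have hC := CC_pos hv1
  have hTc : Continuous T := T.continuous_of_finiteDimensional
  have huc : Continuous u := hu.continuous
  have hum : Measurable fun x => u (T x) := (huc.comp hTc).measurable
  have key : VW w (fun x => u (T x)) ≤ v * δ := by
    refine hcc k hk T (CC v * s) (by positivity) ?_ u hu hu1 ?_
    · intro θ hθ
      have e1 : (fun x => ⟪T x, θ⟫_ℝ) = fun x => ⟪x, LinearMap.adjoint T θ⟫_ℝ := by
        funext x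
        rw [LinearMap.adjoint_inner_right]
      have h3 := hT θ hθ
      rw [e1] at h3 ⊢
      refine (var_cmp h hv hv1 hw hlc hw' hle hmass _).trans ?_
      gcongr
    · intro y
      refine (hud y).trans (le_of_eq ?_)
      rw [Real.sqrt_mul hC.le, div_div]
  have hv2 : ∀ x, |u (T x) ^ 2| ≤ 1 := fun x => by
    rw [abs_pow]
    exact pow_le_one₀ (abs_nonneg _) (hu1 _)
  have i1 : Integrable fun x => u (T x) * w x := hw.bdd _ hum 1 fun x => hu1 _
  have i2 : Integrable fun x => u (T x) ^ 2 * w x := hw.bdd _ (hum.pow_const 2) 1 hv2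
  have j1 : Integrable fun x => u (T x) * w' x := hw'.bdd _ hum 1 fun x => hu1 _
  have j2 : Integrable fun x => u (T x) ^ 2 * w' x := hw'.bdd _ (hum.pow_const 2) 1 hv2
  set m := EW w (fun x => u (T x)) with hm
  rw [VW_eq hw _ i1 i2, ← hm] at key
  refine (VW_le hw' _ j1 j2 m).trans ?_
  have q0 : ∀ z : Eu (Fin n) → ℝ, Adm z → Integrable fun x => (u (T x) - m) ^ 2 * z x := by
    intro z hz
    refine hz.bdd _ ((hum.sub_const m).pow_const 2) ((1 + |m|) ^ 2) fun x => ?_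
    rw [abs_pow]
    refine pow_le_pow_left₀ (abs_nonneg _) ?_ 2
    exact (abs_sub _ _).trans (add_le_add (hu1 _) le_rfl)
  unfold EW at key ⊢
  rw [div_le_iff₀ hw.pos] at key
  rw [div_le_iff₀ hw'.pos]
  have hδ : 0 ≤ δ := by
    have h1 : 0 ≤ v * δ * ∫ x, w x := le_trans (integral_nonneg fun x =>
      mul_nonneg (sq_nonneg _) (hw.nonneg x)) key
    have h2 : 0 < v * ∫ x, w x := mul_pos hv hw.pos
    have h3 : v * δ * ∫ x, w x = δ * (v * ∫ x, w x) := by ring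
    rw [h3] at h1
    exact nonneg_of_mul_nonneg_left h1 h2
  calc ∫ x, (u (T x) - m) ^ 2 * w' x ≤ ∫ x, (u (T x) - m) ^ 2 * w x :=
        integral_mono (q0 w' hw') (q0 w hw) fun x =>
          mul_le_mul_of_nonneg_left (hle x) (sq_nonneg _)
    _ ≤ v * δ * ∫ x, w x := key
    _ = δ * (v * ∫ x, w x) := by ring
    _ ≤ δ * ∫ x, w' x := mul_le_mul_of_nonneg_left hmass hδ

/-- **concentration passes to weights with little more mass** -/
theorem up {η : ℝ} (hη : 0 < η) (hη1 : η < 1) {κ δ : ℝ} {w w' : Eu (Fin n) → ℝ}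
    (hw : Adm w) (hw' : Adm w') (hle : ∀ x, w' x ≤ w x)
    (hmass : (1 - η) * ∫ x, w x ≤ ∫ x, w' x) (hcc : CcW κ δ w') (hδ : 0 ≤ δ) :
    CcW (κ * Real.sqrt (1 - η)) (δ + 4 * η) w := by
  intro k hk T s hs hT u hu hu1 hud
  have hη' : 0 < 1 - η := by linarith
  have hTc : Continuous T := T.continuous_of_finiteDimensional
  have huc : Continuous u := hu.continuous
  have hum : Measurable fun x => u (T x) := (huc.comp hTc).measurable
  have key : VW w' (fun x => u (T x)) ≤ δ := by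
    refine hcc k hk T (s / (1 - η)) (by positivity) ?_ u hu hu1 ?_
    · intro θ hθ
      have e1 : (fun x => ⟪T x, θ⟫_ℝ) = fun x => ⟪x, LinearMap.adjoint T θ⟫_ℝ := by
        funext x
        rw [LinearMap.adjoint_inner_right]
      have h3 := hT θ hθ
      rw [e1] at h3 ⊢
      set φ := LinearMap.adjoint T θ
      set a := EW w (fun x => ⟪x, φ⟫_ℝ) with ha
      refine (VW_le hw' _ (int_l hw' φ) (int_l2 hw' φ) a).trans ?_
      rw [VW_eq hw _ (int_l hw φ) (int_l2 hw φ), ← ha] at h3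
      unfold EW at h3 ⊢
      rw [div_le_iff₀ hw.pos] at h3
      rw [div_le_iff₀ hw'.pos]
      calc ∫ x, (⟪x, φ⟫_ℝ - a) ^ 2 * w' x ≤ ∫ x, (⟪x, φ⟫_ℝ - a) ^ 2 * w x :=
            integral_mono (int_q hw' φ a) (int_q hw φ a) fun x =>
              mul_le_mul_of_nonneg_left (hle x) (sq_nonneg _)
        _ ≤ s * ∫ x, w x := h3
        _ = s / (1 - η) * ((1 - η) * ∫ x, w x) := by field_simp
        _ ≤ s / (1 - η) * ∫ x, w' x := mul_le_mul_of_nonneg_left hmass (by positivity)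
    · intro y
      refine (hud y).trans (le_of_eq ?_)
      rw [Real.sqrt_div hs.le, div_div_eq_mul_div]
  have hv2 : ∀ x, |u (T x) ^ 2| ≤ 1 := fun x => by
    rw [abs_pow]
    exact pow_le_one₀ (abs_nonneg _) (hu1 _)
  have i1 : Integrable fun x => u (T x) * w x := hw.bdd _ hum 1 fun x => hu1 _
  have i2 : Integrable fun x => u (T x) ^ 2 * w x := hw.bdd _ (hum.pow_const 2) 1 hv2
  have j1 : Integrable fun x => u (T x) * w' x := hw'.bdd _ hum 1 fun x => hu1 _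
  have j2 : Integrable fun x => u (T x) ^ 2 * w' x := hw'.bdd _ (hum.pow_const 2) 1 hv2
  obtain ⟨m, hm⟩ : ∃ m : ℝ, m = EW w' (fun x => u (T x)) := ⟨_, rfl⟩
  have hm1 : |m| ≤ 1 := by
    rw [abs_le]
    constructor
    · have h3 := EW_mono hw' (fun _ => -1) (fun x => u (T x))
        (hw'.bdd _ measurable_const 1 (fun x => by simp)) j1 (fun x => (abs_le.1 (hu1 _)).1)
      rw [EW_const hw'] at h3
      rw [hm]
      exact h3
    · have h3 := EW_mono hw' (fun x => u (T x)) (fun _ => 1) j1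
        (hw'.bdd _ measurable_const 1 (fun x => by simp)) (fun x => (abs_le.1 (hu1 _)).2)
      rw [EW_const hw'] at h3
      rw [hm]
      exact h3
  have hd2 : ∀ x, (u (T x) - m) ^ 2 ≤ 4 := by
    intro x
    have h3 := abs_le.1 (hu1 (T x))
    have h4 := abs_le.1 hm1
    nlinarith
  rw [VW_eq hw' _ j1 j2, ← hm] at key
  refine (VW_le hw _ i1 i2 m).trans ?_
  have q0 : ∀ z : Eu (Fin n) → ℝ, Adm z → Integrable fun x => (u (T x) - m) ^ 2 * z x := by
    intro z hz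
    refine hz.bdd _ ((hum.sub_const m).pow_const 2) 4 fun x => ?_
    rw [abs_of_nonneg (sq_nonneg _)]
    exact hd2 x
  unfold EW at key ⊢
  rw [div_le_iff₀ hw'.pos] at key
  rw [div_le_iff₀ hw.pos]
  have hW'W : ∫ x, w' x ≤ ∫ x, w x := integral_mono hw'.one hw.one hle
  have e1 : ∫ x, (u (T x) - m) ^ 2 * w x ≤ ∫ x, ((u (T x) - m) ^ 2 * w' x + 4 * (w x - w' x)) := by
    refine integral_mono (q0 w hw) ((q0 w' hw').add ((hw.one.sub hw'.one).const_mul 4)) fun x => ?_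
    show (u (T x) - m) ^ 2 * w x ≤ (u (T x) - m) ^ 2 * w' x + 4 * (w x - w' x)
    have h3 : 0 ≤ w x - w' x := sub_nonneg.2 (hle x)
    nlinarith [hd2 x, mul_nonneg (sub_nonneg.2 (hd2 x)) h3]
  have i4 : Integrable fun x => 4 * (w x - w' x) := (hw.one.sub hw'.one).const_mul 4
  have e2 : ∫ x, ((u (T x) - m) ^ 2 * w' x + 4 * (w x - w' x)) =
      (∫ x, (u (T x) - m) ^ 2 * w' x) + 4 * ((∫ x, w x) - ∫ x, w' x) := by
    rw [integral_add (q0 w' hw') i4, integral_const_mul, integral_sub hw.one hw'.one]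
  rw [e2] at e1
  have k1 : (∫ x, (u (T x) - m) ^ 2 * w' x) ≤ δ * ∫ x, w' x := key
  have k2 : (∫ x, w x) - ∫ x, w' x ≤ η * ∫ x, w x := by linarith
  have k3 : δ * (∫ x, w' x) ≤ δ * ∫ x, w x := mul_le_mul_of_nonneg_left hW'W hδ
  have k4 : (δ + 4 * η) * (∫ x, w x) = δ * (∫ x, w x) + 4 * (η * ∫ x, w x) := by ring
  rw [k4]
  refine e1.trans ?_
  have k5 := mul_le_mul_of_nonneg_left k2 (by norm_num : (0 : ℝ) ≤ 4)
  linarith

end Pool.Agent.Q184.NB
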